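import Pool.Agent.Q18.HC.Stm

/-!
# Exactness of the truncated complex (PropTR)
-/

set_option autoImplicit false

namespace Pool.Agent.L0h83.HC

open Pool.Agent.W326.DU Pool.Agent.Y66.HC Pool.Agent.Q18.HC

section basic

variable {V M : Type} [AddCommGroup M] {ad : V → V → Prop} {U U' : V → M →+ M} {p : ℤ → M →+ M}

theorem pU (hg : Grad ad U U' p) (v : V) (n : ℤ) (x : M) : p n (U v x) = U v (p (n - 1) x) := by
  have h := hg.deg v (n - 1) x
  rwa [sub_add_cancel] at h

theorem pU' (hg : Grad ad U U' p) (v : V) (n : ℤ) (x : M) : p n (U' v x) = U' v (p (n + 1) x) := by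
  have h := hg.deg v n (U' v x)
  rw [hg.inv1] at h
  rw [h, hg.inv2]

theorem pR (hg : Grad ad U U' p) (v : V) (n : ℤ) (x : M) :
    p n (U v x - x) = U v (p (n - 1) x) - p n x := by
  rw [map_sub, pU hg]

theorem comm' (hg : Grad ad U U' p) {a b : V} (h : ad a b) (x : M) :
    U' a (U' b x) = U' b (U' a x) := by
  have h1 : U a (U b (U' b (U' a x))) = x := by rw [hg.inv1, hg.inv1]
  have h2 : U' a (U' b (U a (U b (U' b (U' a x))))) = U' a (U' b x) := by rw [h1]
  rw [hg.comm a b h, hg.inv2, hg.inv2] at h2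
  exact h2.symm

theorem comm'' (hg : Grad ad U U' p) {a b : V} (h : ad a b) (x : M) :
    U a (U' b x) = U' b (U a x) := by
  have h1 : U b (U a (U' b x)) = U a x := by
    rw [← hg.comm a b h, hg.inv1]
  rw [← h1, hg.inv2]

theorem commR (hg : Grad ad U U' p) {a b : V} (h : ad a b) (x : M) :
    U b (U a x - x) - (U a x - x) = U a (U b x - x) - (U b x - x) := by
  rw [map_sub, map_sub, hg.comm a b h]
  abel

end basic

section main

variable {V M : Type} [Fintype V] [AddCommGroup M] {ad : V → V → Prop} {U U' : V → M →+ M}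
  {p : ℤ → M →+ M}

omit [AddCommGroup M] in
theorem bound {ι : Type} [Finite ι] (P : ι → ℕ → Prop) (hP : ∀ i k l, k ≤ l → P i k → P i l)
    (h : ∀ i, ∃ k, P i k) : ∃ k, ∀ i, P i k := by
  classical
  have := Fintype.ofFinite ι
  choose f hf using h
  exact ⟨Finset.univ.sup f, fun i => hP i _ _ (Finset.le_sup (Finset.mem_univ i)) (hf i)⟩

theorem exists_sup {ι : Type} [Finite ι] (hg : Grad ad U U' p) (y : ι → M) :
    ∃ k : ℕ, ∀ i, Sup p (-k) k (y i) := by
  refine bound (fun i k => Sup p (-k) k (y i)) ?_ ?_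
  · intro i k l hkl h n hn
    refine h n ?_
    have : (k : ℤ) ≤ l := by exact_mod_cast hkl
    omega
  · intro i
    obtain ⟨k, hk⟩ := hg.fin (y i)
    exact ⟨k, hk⟩

theorem antisum (f : V → V → M) (h : ∀ a b, f a b = - f b a) (hd : ∀ a, f a a = 0) :
    ∑ b, ∑ a, f a b = 0 := by
  classical
  rw [Finset.sum_comm, ← Fintype.sum_prod_type']
  refine Finset.sum_involution (fun q _ => q.swap) ?_ ?_ ?_ ?_
  · intro q _
    simp only [Prod.fst_swap, Prod.snd_swap]
    rw [h q.1 q.2, neg_add_cancel]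
  · intro q _ hq hs
    apply hq
    have : q.1 = q.2 := by
      have := congrArg Prod.fst hs
      simpa using this.symm
    rw [this, hd]
  · intro q _
    exact Finset.mem_univ _
  · intro q _
    simp

/-- the boundary of a boundary is zero -/
theorem ddz (hg : Grad ad U U' p) (z : V → V → M) (hz : ∀ a b, z a b = - z b a)
    (hz0 : ∀ a b, ¬ ad a b → z a b = 0) (hirr : ∀ a, ¬ ad a a) :
    ∑ b, (U b (∑ a, (U a (z a b) - z a b)) - ∑ a, (U a (z a b) - z a b)) = 0 := by
  have h1 : ∀ b, (U b (∑ a, (U a (z a b) - z a b)) - ∑ a, (U a (z a b) - z a b)) =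
      ∑ a, (U b (U a (z a b) - z a b) - (U a (z a b) - z a b)) := by
    intro b
    rw [map_sum, ← Finset.sum_sub_distrib]
  simp only [h1]
  refine antisum (fun a b => U b (U a (z a b) - z a b) - (U a (z a b) - z a b)) ?_ ?_
  · intro a b
    by_cases hab : ad a b
    · show U b (U a (z a b) - z a b) - (U a (z a b) - z a b) =
        -(U a (U b (z b a) - z b a) - (U b (z b a) - z b a))
      rw [commR hg hab, hz a b]
      simp only [map_neg, map_sub]
      abel
    · by_cases hba : ad b a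
      · show U b (U a (z a b) - z a b) - (U a (z a b) - z a b) =
          -(U a (U b (z b a) - z b a) - (U b (z b a) - z b a))
        rw [commR hg hba, hz a b]
        simp only [map_neg, map_sub]
        abel
      · show U b (U a (z a b) - z a b) - (U a (z a b) - z a b) =
          -(U a (U b (z b a) - z b a) - (U b (z b a) - z b a))
        rw [hz0 a b hab, hz0 b a hba]
        simp
  · intro a
    show U a (U a (z a a) - z a a) - (U a (z a a) - z a a) = 0
    rw [hz0 a a (hirr a)]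
    simp

/-! ### first part -/

/-- top step -/
theorem top1 (hsym : ∀ a b, ad a b → ad b a) (hirr : ∀ a, ¬ ad a a) (hac : Acyc ad)
    (hg : Grad ad U U' p) (s : M) (a0 N : ℤ) (hN : 2 ≤ N) (ha0 : a0 ≤ 0) (hs : Sup p 0 2 s)
    (h : ∃ y : V → M, ∑ v, (U v (y v) - y v) = s ∧ ∀ v, Sup p a0 N (y v)) :
    ∃ y : V → M, ∑ v, (U v (y v) - y v) = s ∧ ∀ v, Sup p a0 (N - 1) (y v) := by
  obtain ⟨y, hy, hy'⟩ := h
  have h1 : ∑ v, U v (p N (y v)) = 0 := by
    have h2 : p (N + 1) s = 0 := hs _ (Or.inr (by omega))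
    rw [← hy, map_sum] at h2
    rw [← h2]
    refine Finset.sum_congr rfl fun v _ => ?_
    rw [pR hg, add_sub_cancel_right, hy' v (N + 1) (Or.inr (by omega)), sub_zero]
  obtain ⟨w, hw, hw'⟩ := hac.ac1 M _ h1
  let z : V → V → M := fun a b => U' a (U' b (p (N + 1) (w a b)))
  have hw0 : ∀ a b, ¬ ad a b → w a b = 0 := fun a b hab => hw.2 a b (fun h => hab h.2.2)
  have hz0 : ∀ a b, ¬ ad a b → z a b = 0 := by
    intro a b hab
    simp only [z, hw0 a b hab, map_zero]
  have hz : ∀ a b, z a b = - z b a := by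
    intro a b
    by_cases hab : ad a b
    · simp only [z]
      rw [comm' hg hab, hw.1 a b]
      simp only [map_neg]
    · rw [hz0 a b hab, hz0 b a (fun h => hab (hsym _ _ h)), neg_zero]
  have hzd : ∀ n a b, n ≠ N - 1 → p n (z a b) = 0 := by
    intro n a b hn
    simp only [z]
    rw [pU' hg, pU' hg, hg.orth _ _ _ (by omega), map_zero, map_zero]
  have hsum : ∀ b, ∑ a, U a (z a b) = p N (y b) := by
    intro b
    have h2 : ∀ a, U a (z a b) = U' b (p (N + 1) (w a b)) := by
      intro a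
      simp only [z]
      rw [hg.inv1]
    simp only [h2]
    rw [← map_sum, ← map_sum, ← hw' b, pU hg, add_sub_cancel_right, hg.idem, hg.inv2]
  have hdd := ddz hg z hz hz0 hirr
  refine ⟨fun b => y b - ∑ a, (U a (z a b) - z a b), ?_, ?_⟩
  · rw [← hy, ← sub_eq_zero, ← Finset.sum_sub_distrib, ← neg_eq_zero, ← Finset.sum_neg_distrib]
    rw [← hdd]
    refine Finset.sum_congr rfl fun b _ => ?_
    beta_reduce
    rw [map_sub]
    abel
  · intro b n hn
    simp only
    rw [Finset.sum_sub_distrib, hsum b, map_sub, map_sub, map_sum]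
    rcases lt_trichotomy n N with h3 | h3 | h3
    · have h4 : n < a0 := by omega
      rw [hy' b n (Or.inl h4), hg.orth _ _ _ (by omega),
        Finset.sum_eq_zero (fun a _ => hzd n a b (by omega))]
      simp
    · subst h3
      rw [hg.idem, Finset.sum_eq_zero (fun a _ => hzd n a b (by omega))]
      simp
    · rw [hy' b n (Or.inr h3), hg.orth _ _ _ (by omega),
        Finset.sum_eq_zero (fun a _ => hzd n a b (by omega))]
      simp

/-- bottom step -/
theorem bot1 (hirr : ∀ a, ¬ ad a a) (hac : Acyc ad)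
    (hg : Grad ad U U' p) (s : M) (a0 N : ℤ) (hN : 0 ≤ N) (ha0 : a0 < 0) (hs : Sup p 0 2 s)
    (h : ∃ y : V → M, ∑ v, (U v (y v) - y v) = s ∧ ∀ v, Sup p a0 N (y v)) :
    ∃ y : V → M, ∑ v, (U v (y v) - y v) = s ∧ ∀ v, Sup p (a0 + 1) N (y v) := by
  obtain ⟨y, hy, hy'⟩ := h
  have h1 : ∑ v, p a0 (y v) = 0 := by
    have h2 : p a0 s = 0 := hs _ (Or.inl ha0)
    rw [← hy, map_sum] at h2
    rw [← neg_eq_zero, ← Finset.sum_neg_distrib, ← h2]
    refine Finset.sum_congr rfl fun v _ => ?_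
    rw [pR hg, hy' v (a0 - 1) (Or.inl (by omega)), map_zero, zero_sub]
  obtain ⟨w, hw, hw'⟩ := hac.ac1 M _ h1
  let z : V → V → M := fun a b => p a0 (w a b)
  have hw0 : ∀ a b, ¬ ad a b → w a b = 0 := fun a b hab => hw.2 a b (fun h => hab h.2.2)
  have hz0 : ∀ a b, ¬ ad a b → z a b = 0 := by
    intro a b hab
    simp only [z, hw0 a b hab, map_zero]
  have hz : ∀ a b, z a b = - z b a := by
    intro a b
    simp only [z]
    rw [hw.1 a b, map_neg]
  have hsum : ∀ b, ∑ a, z a b = p a0 (y b) := by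
    intro b
    simp only [z]
    rw [← map_sum, ← hw' b, hg.idem]
  have hzd : ∀ n a b, n ≠ a0 + 1 → p n (U a (z a b)) = 0 := by
    intro n a b hn
    simp only [z]
    rw [pU hg, hg.orth _ _ _ (by omega), map_zero]
  have hdd := ddz hg z hz hz0 hirr
  refine ⟨fun b => y b + ∑ a, (U a (z a b) - z a b), ?_, ?_⟩
  · rw [← hy, ← sub_eq_zero, ← Finset.sum_sub_distrib]
    rw [← hdd]
    refine Finset.sum_congr rfl fun b _ => ?_
    beta_reduce
    rw [map_add]
    abel
  · intro b n hn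
    simp only
    rw [Finset.sum_sub_distrib, hsum b, map_add, map_sub, map_sum]
    rcases lt_trichotomy n a0 with h3 | h3 | h3
    · rw [hy' b n (Or.inl h3), hg.orth _ _ _ (by omega),
        Finset.sum_eq_zero (fun a _ => hzd n a b (by omega))]
      simp
    · subst h3
      rw [hg.idem, Finset.sum_eq_zero (fun a _ => hzd n a b (by omega))]
      simp
    · have h4 : N < n := by omega
      rw [hy' b n (Or.inr h4), hg.orth _ _ _ (by omega),
        Finset.sum_eq_zero (fun a _ => hzd n a b (by omega))]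
      simp

/-- descending and ascending induction on the bounds of the degrees -/
theorem descend (P : ℤ → ℤ → Prop) (l m : ℤ) (hml : l ≤ m + 1)
    (htop : ∀ a N, m < N → a ≤ l → P a N → P a (N - 1))
    (hbot : ∀ a N, m ≤ N → a < l → P a N → P (a + 1) N)
    (a N : ℤ) (ha : a ≤ l) (hN : m ≤ N) (h : P a N) : P l m := by
  have h1 : ∀ k : ℕ, P a (m + k) → P a m := by
    intro k
    induction k with
    | zero => intro h; simpa using h
    | succ k ih =>
      intro h
      apply ih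
      have := htop a (m + (k + 1 : ℕ)) (by push_cast; omega) ha h
      have e : m + ((k + 1 : ℕ) : ℤ) - 1 = m + k := by push_cast; ring
      rwa [e] at this
  have h2 : P a m := h1 (N - m).toNat (by
    have e : m + ((N - m).toNat : ℤ) = N := by omega
    rwa [e])
  have h3 : ∀ k : ℕ, P (l - k) m → P l m := by
    intro k
    induction k with
    | zero => intro h; simpa using h
    | succ k ih =>
      intro h
      apply ih
      have := hbot (l - (k + 1 : ℕ)) m le_rfl (by push_cast; omega) h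
      have e : l - ((k + 1 : ℕ) : ℤ) + 1 = l - k := by push_cast; ring
      rwa [e] at this
  refine h3 (l - a).toNat ?_
  have e : l - ((l - a).toNat : ℤ) = a := by omega
  rwa [e]

theorem part1 (hsym : ∀ a b, ad a b → ad b a) (hirr : ∀ a, ¬ ad a a) (hac : Acyc ad)
    (hg : Grad ad U U' p) (y : V → M) (hs : Sup p 0 2 (∑ v, (U v (y v) - y v))) :
    ∃ y' : V → M, (∀ v, Sup p 0 1 (y' v)) ∧
      ∑ v, (U v (y' v) - y' v) = ∑ v, (U v (y v) - y v) := by
  obtain ⟨k, hk⟩ := exists_sup hg y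
  have h := descend (fun a N => ∃ y' : V → M, ∑ v, (U v (y' v) - y' v) = ∑ v, (U v (y v) - y v) ∧
    ∀ v, Sup p a N (y' v)) 0 1 (by norm_num)
    (fun a N hN ha h => top1 hsym hirr hac hg _ a N (by omega) ha hs h)
    (fun a N hN ha h => bot1 hirr hac hg _ a N (by omega) ha hs h) (-k) (k + 1) (by omega) (by omega)
    ⟨y, rfl, fun v n hn => hk v n (by omega)⟩
  obtain ⟨y', h1, h2⟩ := h
  exact ⟨y', h2, h1⟩

/-! ### second part -/

theorem ddt (hg : Grad ad U U' p) (z : V → V → V → M) (hz1 : ∀ a b c, z a b c = - z b a c)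
    (hz0 : ∀ a b c, ¬ (ad a b ∧ ad b c ∧ ad a c) → z a b c = 0) (hirr : ∀ a, ¬ ad a a) (c : V) :
    ∑ b, (U b (∑ a, (U a (z a b c) - z a b c)) - ∑ a, (U a (z a b c) - z a b c)) = 0 :=
  ddz hg (fun a b => z a b c) (fun a b => hz1 a b c)
    (fun a b hab => hz0 a b c (fun h => hab h.1)) hirr


theorem cancel2 (hg : Grad ad U U' p) {b c : V} (hbc : ad b c) (x : M) :
    U' b (U' c (U b (U c x))) = x := by
  rw [hg.comm b c hbc, hg.inv2, hg.inv2]

/-- top step -/
theorem top2 (hsym : ∀ a b, ad a b → ad b a) (hirr : ∀ a, ¬ ad a a) (hac : Acyc ad)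
    (hg : Grad ad U U' p) (x : V → M) (a0 N : ℤ) (hN : 1 ≤ N) (ha0 : a0 ≤ 0)
    (hx : ∀ v, Sup p 0 1 (x v))
    (h : ∃ y : V → V → M, (IsAlt2 ad Set.univ y ∧ ∀ b, x b = ∑ a, (U a (y a b) - y a b)) ∧
      ∀ a b, Sup p a0 N (y a b)) :
    ∃ y : V → V → M, (IsAlt2 ad Set.univ y ∧ ∀ b, x b = ∑ a, (U a (y a b) - y a b)) ∧
      ∀ a b, Sup p a0 (N - 1) (y a b) := by
  obtain ⟨y, ⟨hya, hy⟩, hy'⟩ := h
  have hy0 : ∀ a b, ¬ ad a b → y a b = 0 := fun a b hab => hya.2 a b (fun h => hab h.2.2)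
  have h1 : ∀ c, ∑ a, U a (p N (y a c)) = 0 := by
    intro c
    have h2 : p (N + 1) (x c) = 0 := hx c _ (Or.inr (by omega))
    rw [hy c, map_sum] at h2
    rw [← h2]
    refine Finset.sum_congr rfl fun v _ => ?_
    rw [pR hg, add_sub_cancel_right, hy' v c (N + 1) (Or.inr (by omega)), sub_zero]
  let y2 : V → V → M := fun a b => U a (U b (p N (y a b)))
  have hy2 : IsAlt2 ad Set.univ y2 := by
    refine ⟨fun a b => ?_, fun a b hab => ?_⟩
    · by_cases hab : ad a b
      · show U a (U b (p N (y a b))) = - U b (U a (p N (y b a)))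
        rw [hg.comm a b hab, hya.1 a b]
        simp only [map_neg]
      · show U a (U b (p N (y a b))) = - U b (U a (p N (y b a)))
        rw [hy0 a b hab, hy0 b a (fun h => hab (hsym _ _ h))]
        simp
    · show U a (U b (p N (y a b))) = 0
      rw [hya.2 a b hab]
      simp
  have h3 : ∀ b, ∑ a, y2 a b = 0 := by
    intro b
    have h4 : ∀ a, y2 a b = U b (U a (p N (y a b))) := by
      intro a
      by_cases hab : ad a b
      · exact hg.comm a b hab _
      · show U a (U b (p N (y a b))) = U b (U a (p N (y a b)))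
        rw [hy0 a b hab]
        simp
    simp only [h4]
    rw [← map_sum, h1 b, map_zero]
  obtain ⟨z, hz, hz'⟩ := hac.ac2 M y2 hy2 h3
  have hz0 : ∀ a b c, ¬ (ad a b ∧ ad b c ∧ ad a c) → z a b c = 0 := fun a b c h =>
    hz.2.2 a b c (fun h' => h h'.2.2.2)
  let t : V → V → V → M := fun a b c => U' a (U' b (U' c (p (N + 2) (z a b c))))
  have ht0 : ∀ a b c, ¬ (ad a b ∧ ad b c ∧ ad a c) → t a b c = 0 := by
    intro a b c h
    show U' a (U' b (U' c (p (N + 2) (z a b c)))) = 0
    rw [hz0 a b c h]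
    simp
  have ht1 : ∀ a b c, t a b c = - t b a c := by
    intro a b c
    by_cases h : ad a b ∧ ad b c ∧ ad a c
    · show U' a (U' b (U' c (p (N + 2) (z a b c)))) = - U' b (U' a (U' c (p (N + 2) (z b a c))))
      rw [comm' hg h.1, hz.1 a b c]
      simp only [map_neg]
    · rw [ht0 a b c h, ht0 b a c (fun h' => h ⟨hsym _ _ h'.1, h'.2.2, h'.2.1⟩), neg_zero]
  have ht2 : ∀ a b c, t a b c = - t a c b := by
    intro a b c
    by_cases h : ad a b ∧ ad b c ∧ ad a c
    · show U' a (U' b (U' c (p (N + 2) (z a b c)))) = - U' a (U' c (U' b (p (N + 2) (z a c b))))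
      rw [comm' hg h.2.1, hz.2.1 a b c]
      simp only [map_neg]
    · rw [ht0 a b c h, ht0 a c b (fun h' => h ⟨h'.2.2, hsym _ _ h'.2.1, h'.1⟩), neg_zero]
  have htd : ∀ n a b c, n ≠ N - 1 → p n (t a b c) = 0 := by
    intro n a b c hn
    show p n (U' a (U' b (U' c (p (N + 2) (z a b c))))) = 0
    rw [pU' hg, pU' hg, pU' hg, hg.orth _ _ _ (by omega), map_zero, map_zero, map_zero]
  have hsum : ∀ b c, ∑ a, U a (t a b c) = p N (y b c) := by
    intro b c
    have h4 : ∀ a, U a (t a b c) = U' b (U' c (p (N + 2) (z a b c))) := fun a => hg.inv1 _ _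
    simp only [h4]
    rw [← map_sum, ← map_sum, ← map_sum, ← hz' b c]
    show U' b (U' c (p (N + 2) (U b (U c (p N (y b c)))))) = p N (y b c)
    by_cases hbc : ad b c
    · rw [pU hg, pU hg]
      have e : N + 2 - 1 - 1 = N := by ring
      rw [e, hg.idem, cancel2 hg hbc]
    · rw [hy0 b c hbc]
      simp
  refine ⟨fun b c => y b c - ∑ a, (U a (t a b c) - t a b c), ⟨⟨fun b c => ?_, fun b c hbc => ?_⟩,
    fun c => ?_⟩, fun b c n hn => ?_⟩
  · show y b c - ∑ a, (U a (t a b c) - t a b c) = -(y c b - ∑ a, (U a (t a c b) - t a c b))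
    rw [hya.1 b c, neg_sub', sub_neg_eq_add, sub_eq_add_neg, ← Finset.sum_neg_distrib]
    congr 1
    refine Finset.sum_congr rfl fun a _ => ?_
    rw [ht2 a b c, map_neg]
    abel
  · show y b c - ∑ a, (U a (t a b c) - t a b c) = 0
    rw [hya.2 b c hbc, Finset.sum_eq_zero, sub_zero]
    intro a _
    rw [ht0 a b c (fun h => hbc ⟨trivial, trivial, h.2.1⟩)]
    simp
  · have hdd := ddt hg t ht1 ht0 hirr c
    rw [hy c, ← sub_eq_zero, ← Finset.sum_sub_distrib, ← hdd]
    refine Finset.sum_congr rfl fun b _ => ?_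
    beta_reduce
    rw [map_sub]
    abel
  · show p n (y b c - ∑ a, (U a (t a b c) - t a b c)) = 0
    rw [Finset.sum_sub_distrib, hsum b c, map_sub, map_sub, map_sum]
    rcases lt_trichotomy n N with h3 | h3 | h3
    · have h4 : n < a0 := by omega
      rw [hy' b c n (Or.inl h4), hg.orth _ _ _ (by omega),
        Finset.sum_eq_zero (fun a _ => htd n a b c (by omega))]
      simp
    · subst h3
      rw [hg.idem, Finset.sum_eq_zero (fun a _ => htd n a b c (by omega))]
      simp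
    · rw [hy' b c n (Or.inr h3), hg.orth _ _ _ (by omega),
        Finset.sum_eq_zero (fun a _ => htd n a b c (by omega))]
      simp

/-- bottom step -/
theorem bot2 (hirr : ∀ a, ¬ ad a a) (hac : Acyc ad)
    (hg : Grad ad U U' p) (x : V → M) (a0 N : ℤ) (hN : 0 ≤ N) (ha0 : a0 < 0)
    (hx : ∀ v, Sup p 0 1 (x v))
    (h : ∃ y : V → V → M, (IsAlt2 ad Set.univ y ∧ ∀ b, x b = ∑ a, (U a (y a b) - y a b)) ∧
      ∀ a b, Sup p a0 N (y a b)) :
    ∃ y : V → V → M, (IsAlt2 ad Set.univ y ∧ ∀ b, x b = ∑ a, (U a (y a b) - y a b)) ∧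
      ∀ a b, Sup p (a0 + 1) N (y a b) := by
  obtain ⟨y, ⟨hya, hy⟩, hy'⟩ := h
  have hy0 : ∀ a b, ¬ ad a b → y a b = 0 := fun a b hab => hya.2 a b (fun h => hab h.2.2)
  have h1 : ∀ c, ∑ a, p a0 (y a c) = 0 := by
    intro c
    have h2 : p a0 (x c) = 0 := hx c _ (Or.inl ha0)
    rw [hy c, map_sum] at h2
    rw [← neg_eq_zero, ← Finset.sum_neg_distrib, ← h2]
    refine Finset.sum_congr rfl fun v _ => ?_
    rw [pR hg, hy' v c (a0 - 1) (Or.inl (by omega)), map_zero, zero_sub]
  let y2 : V → V → M := fun a b => p a0 (y a b)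
  have hy2 : IsAlt2 ad Set.univ y2 := by
    refine ⟨fun a b => ?_, fun a b hab => ?_⟩
    · show p a0 (y a b) = - p a0 (y b a)
      rw [hya.1 a b, map_neg]
    · show p a0 (y a b) = 0
      rw [hya.2 a b hab, map_zero]
  obtain ⟨z, hz, hz'⟩ := hac.ac2 M y2 hy2 h1
  have hz0 : ∀ a b c, ¬ (ad a b ∧ ad b c ∧ ad a c) → z a b c = 0 := fun a b c h =>
    hz.2.2 a b c (fun h' => h h'.2.2.2)
  let t : V → V → V → M := fun a b c => p a0 (z a b c)
  have ht0 : ∀ a b c, ¬ (ad a b ∧ ad b c ∧ ad a c) → t a b c = 0 := by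
    intro a b c h
    show p a0 (z a b c) = 0
    rw [hz0 a b c h, map_zero]
  have ht1 : ∀ a b c, t a b c = - t b a c := by
    intro a b c
    show p a0 (z a b c) = - p a0 (z b a c)
    rw [hz.1 a b c, map_neg]
  have ht2 : ∀ a b c, t a b c = - t a c b := by
    intro a b c
    show p a0 (z a b c) = - p a0 (z a c b)
    rw [hz.2.1 a b c, map_neg]
  have htd : ∀ n a b c, n ≠ a0 + 1 → p n (U a (t a b c)) = 0 := by
    intro n a b c hn
    show p n (U a (p a0 (z a b c))) = 0
    rw [pU hg, hg.orth _ _ _ (by omega), map_zero]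
  have hsum : ∀ b c, ∑ a, t a b c = p a0 (y b c) := by
    intro b c
    show ∑ a, p a0 (z a b c) = p a0 (y b c)
    rw [← map_sum, ← hz' b c]
    exact hg.idem _ _
  refine ⟨fun b c => y b c + ∑ a, (U a (t a b c) - t a b c), ⟨⟨fun b c => ?_, fun b c hbc => ?_⟩,
    fun c => ?_⟩, fun b c n hn => ?_⟩
  · show y b c + ∑ a, (U a (t a b c) - t a b c) = -(y c b + ∑ a, (U a (t a c b) - t a c b))
    rw [hya.1 b c, neg_add, ← Finset.sum_neg_distrib]
    congr 1
    refine Finset.sum_congr rfl fun a _ => ?_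
    rw [ht2 a b c, map_neg]
    abel
  · show y b c + ∑ a, (U a (t a b c) - t a b c) = 0
    rw [hya.2 b c hbc, Finset.sum_eq_zero, add_zero]
    intro a _
    rw [ht0 a b c (fun h => hbc ⟨trivial, trivial, h.2.1⟩)]
    simp
  · have hdd := ddt hg t ht1 ht0 hirr c
    rw [hy c, eq_comm, ← sub_eq_zero, ← Finset.sum_sub_distrib, ← hdd]
    refine Finset.sum_congr rfl fun b _ => ?_
    beta_reduce
    rw [map_add]
    abel
  · show p n (y b c + ∑ a, (U a (t a b c) - t a b c)) = 0
    rw [Finset.sum_sub_distrib, hsum b c, map_add, map_sub, map_sum]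
    rcases lt_trichotomy n a0 with h3 | h3 | h3
    · rw [hy' b c n (Or.inl h3), hg.orth _ _ _ (by omega),
        Finset.sum_eq_zero (fun a _ => htd n a b c (by omega))]
      simp
    · subst h3
      rw [hg.idem, Finset.sum_eq_zero (fun a _ => htd n a b c (by omega))]
      simp
    · have h4 : N < n := by omega
      rw [hy' b c n (Or.inr h4), hg.orth _ _ _ (by omega),
        Finset.sum_eq_zero (fun a _ => htd n a b c (by omega))]
      simp

theorem part2 (hsym : ∀ a b, ad a b → ad b a) (hirr : ∀ a, ¬ ad a a) (hac : Acyc ad)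
    (hg : Grad ad U U' p)
    (hex : ∀ x : V → M, ∑ v, (U v (x v) - x v) = 0 →
      ∃ y, IsAlt2 ad Set.univ y ∧ ∀ b, x b = ∑ a, (U a (y a b) - y a b))
    (x : V → M) (hx : ∀ v, Sup p 0 1 (x v)) (hx0 : ∑ v, (U v (x v) - x v) = 0) :
    ∃ y, IsAlt2 ad Set.univ y ∧ (∀ a b, Sup p 0 0 (y a b)) ∧
      ∀ b, x b = ∑ a, (U a (y a b) - y a b) := by
  obtain ⟨y, hy⟩ := hex x hx0
  obtain ⟨k, hk⟩ := exists_sup hg (fun q : V × V => y q.1 q.2)
  have h := descend (fun a N => ∃ y : V → V → M,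
    (IsAlt2 ad Set.univ y ∧ ∀ b, x b = ∑ a, (U a (y a b) - y a b)) ∧
      ∀ c b, Sup p a N (y c b)) 0 0 (by norm_num)
    (fun a N hN ha h => top2 hsym hirr hac hg _ a N (by omega) ha hx h)
    (fun a N hN ha h => bot2 hirr hac hg _ a N (by omega) ha hx h) (-k) k (by omega) (by omega)
    ⟨y, hy, fun a b => hk (a, b)⟩
  obtain ⟨y', h1, h2⟩ := h
  exact ⟨y', h1.1, h2, h1.2⟩

/-! ### third part -/

theorem top3 (hsym : ∀ a b, ad a b → ad b a) (hac : Acyc ad)
    (hg : Grad ad U U' p) (y : V → V → M) (z : V → V → V → M) (hz : IsAlt3 ad Set.univ z)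
    (hyz : ∀ b c, y b c = ∑ a, (U a (z a b c) - z a b c)) (hy : ∀ b c, Sup p 0 0 (y b c))
    (a0 N : ℤ) (hN : 0 ≤ N) (h : ∀ a b c, Sup p a0 N (z a b c)) :
    ∀ a b c, Sup p a0 (N - 1) (z a b c) := by
  have hz0 : ∀ a b c, ¬ (ad a b ∧ ad b c ∧ ad a c) → z a b c = 0 := fun a b c h =>
    hz.2.2 a b c (fun h' => h h'.2.2.2)
  have h1 : ∀ b c, ∑ a, U a (p N (z a b c)) = 0 := by
    intro b c
    have h2 : p (N + 1) (y b c) = 0 := hy b c _ (Or.inr (by omega))
    rw [hyz b c, map_sum] at h2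
    rw [← h2]
    refine Finset.sum_congr rfl fun v _ => ?_
    rw [pR hg, add_sub_cancel_right, h v b c (N + 1) (Or.inr (by omega)), sub_zero]
  let t : V → V → V → M := fun a b c => U a (U b (U c (p N (z a b c))))
  have ht : IsAlt3 ad Set.univ t := by
    refine ⟨fun a b c => ?_, fun a b c => ?_, fun a b c hh => ?_⟩
    · show U a (U b (U c (p N (z a b c)))) = - U b (U a (U c (p N (z b a c))))
      by_cases hh : ad a b ∧ ad b c ∧ ad a c
      · rw [hg.comm a b hh.1, hz.1 a b c]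
        simp only [map_neg]
      · rw [hz0 a b c hh, hz0 b a c (fun h' => hh ⟨hsym _ _ h'.1, h'.2.2, h'.2.1⟩)]
        simp
    · show U a (U b (U c (p N (z a b c)))) = - U a (U c (U b (p N (z a c b))))
      by_cases hh : ad a b ∧ ad b c ∧ ad a c
      · rw [hg.comm b c hh.2.1, hz.2.1 a b c]
        simp only [map_neg]
      · rw [hz0 a b c hh, hz0 a c b (fun h' => hh ⟨h'.2.2, hsym _ _ h'.2.1, h'.1⟩)]
        simp
    · show U a (U b (U c (p N (z a b c)))) = 0
      rw [hz.2.2 a b c hh]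
      simp
  have ht0 : ∀ b c, ∑ a, t a b c = 0 := by
    intro b c
    have h4 : ∀ a, t a b c = U b (U c (U a (p N (z a b c)))) := by
      intro a
      show U a (U b (U c (p N (z a b c)))) = _
      by_cases hh : ad a b ∧ ad b c ∧ ad a c
      · rw [hg.comm a b hh.1, hg.comm a c hh.2.2]
      · rw [hz0 a b c hh]
        simp
    simp only [h4]
    rw [← map_sum, ← map_sum, h1 b c, map_zero, map_zero]
  have h5 := hac.ac3 M t ht ht0
  intro a b c n hn
  rcases lt_trichotomy n N with h3 | h3 | h3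
  · exact h a b c n (Or.inl (by omega))
  · subst h3
    have h6 : U a (U b (U c (p n (z a b c)))) = 0 := h5 a b c
    have h7 := congrArg (fun q => U' c (U' b (U' a q))) h6
    simp only [hg.inv2, map_zero] at h7
    exact h7
  · exact h a b c n (Or.inr h3)

theorem bot3 (hac : Acyc ad)
    (hg : Grad ad U U' p) (y : V → V → M) (z : V → V → V → M) (hz : IsAlt3 ad Set.univ z)
    (hyz : ∀ b c, y b c = ∑ a, (U a (z a b c) - z a b c)) (hy : ∀ b c, Sup p 0 0 (y b c))
    (a0 N : ℤ) (ha0 : a0 < 0) (h : ∀ a b c, Sup p a0 N (z a b c)) :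
    ∀ a b c, Sup p (a0 + 1) N (z a b c) := by
  have h1 : ∀ b c, ∑ a, p a0 (z a b c) = 0 := by
    intro b c
    have h2 : p a0 (y b c) = 0 := hy b c _ (Or.inl ha0)
    rw [hyz b c, map_sum] at h2
    rw [← neg_eq_zero, ← Finset.sum_neg_distrib, ← h2]
    refine Finset.sum_congr rfl fun v _ => ?_
    rw [pR hg, h v b c (a0 - 1) (Or.inl (by omega)), map_zero, zero_sub]
  have ht : IsAlt3 ad Set.univ (fun a b c => p a0 (z a b c)) := by
    refine ⟨fun a b c => ?_, fun a b c => ?_, fun a b c hh => ?_⟩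
    · show p a0 (z a b c) = - p a0 (z b a c)
      rw [hz.1 a b c, map_neg]
    · show p a0 (z a b c) = - p a0 (z a c b)
      rw [hz.2.1 a b c, map_neg]
    · show p a0 (z a b c) = 0
      rw [hz.2.2 a b c hh, map_zero]
  have h5 := hac.ac3 M _ ht h1
  intro a b c n hn
  rcases lt_trichotomy n a0 with h3 | h3 | h3
  · exact h a b c n (Or.inl h3)
  · subst h3
    exact h5 a b c
  · exact h a b c n (Or.inr (by omega))

theorem part3 (hsym : ∀ a b, ad a b → ad b a) (hac : Acyc ad)
    (hg : Grad ad U U' p)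
    (hex : ∀ y : V → V → M, IsAlt2 ad Set.univ y → (∀ b, ∑ a, (U a (y a b) - y a b) = 0) →
      ∃ z, IsAlt3 ad Set.univ z ∧ ∀ b c, y b c = ∑ a, (U a (z a b c) - z a b c))
    (y : V → V → M) (hya : IsAlt2 ad Set.univ y) (hy : ∀ a b, Sup p 0 0 (y a b))
    (hy0 : ∀ b, ∑ a, (U a (y a b) - y a b) = 0) : ∀ a b, y a b = 0 := by
  obtain ⟨z, hz, hyz⟩ := hex y hya hy0
  obtain ⟨k, hk⟩ := exists_sup hg (fun q : V × V × V => z q.1 q.2.1 q.2.2)
  have h := descend (fun a N => ∀ c d e, Sup p a N (z c d e)) 0 (-1) (by norm_num)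
    (fun a N hN ha h => top3 hsym hac hg y z hz hyz hy a N (by omega) h)
    (fun a N hN ha h => bot3 hac hg y z hz hyz hy a N (by omega) h) (-k) k (by omega) (by omega)
    (fun a b c => hk (a, b, c))
  have h0 : ∀ c d e, z c d e = 0 := fun c d e =>
    hg.ext _ (fun n => h c d e n (by omega))
  intro a b
  rw [hyz a b]
  refine Finset.sum_eq_zero fun c _ => ?_
  rw [h0, map_zero, sub_zero]

end main

/-- exactness of the truncated complex -/
theorem tr : PropTR := by
  intro V M _ _ ad U U' p hsym hirr hac hg h1 h2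
  exact ⟨fun y hy => part1 hsym hirr hac hg y hy,
    fun x hx hx0 => part2 hsym hirr hac hg h1 x hx hx0,
    fun y hya hy hy0 => part3 hsym hac hg h2 y hya hy hy0⟩

end Pool.Agent.L0h83.HC
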